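import Pool.Agent.H420R3.NonHomog2

/-! MP_6fe59b_gt, Q1: the Homogeneity Conjecture fails for homogeneous Finsler manifolds, already
for metrics of Randers type and for a group of order two.

The example. On `M = (ℂ² \ 0) × (ℂ \ 0)`, with points `(x, y)` and tangent vectors `(u, v)`, let
`F = √(144 |u|²/|x|² + 64 |v|²/|y|² + 81 ω²) - 9 ω`, `ω = Re⟨ix, u⟩/|x|²`. It is the solution of
Zermelo's navigation problem for the product metric `|dx|²/|x|² + (4/9) |dy|²/|y|²` and the wind
`(3/5) i x` (up to scaling), and it is invariant under a simply transitive group. The involution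
`γ(a, b, y) = (-a, b, -y)` has constant displacement `8π`. The quotient by `{1, γ}` is not
homogeneous. -/

open Set Pool.Agent.H420R3

namespace Pool.Agent.Results.MP_6fe59b_gt.RandersCounterexample

/-- There are a connected homogeneous Finsler manifold `(M, F)` (an open subset of `ℂ² × ℂ = ℝ⁶`),
with `F` of Randers type, a group `Γ = {id, γ}` of isometries of `(M, F)` acting freely and
properly discontinuously, all of whose elements have constant displacement (with `γ` of order two
and displacement `8π`), and a Finsler covering `π : (M, F) → (N, G)` with group `Γ`, i.e.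
`(N, G) = Γ\(M, F)`, such that `(N, G)` is not homogeneous. -/
theorem result :
    ∃ (M N : Set (WithLp 2 (ℂ × ℂ) × ℂ))
      (F G : WithLp 2 (ℂ × ℂ) × ℂ → WithLp 2 (ℂ × ℂ) × ℂ → ℝ)
      (γ π : WithLp 2 (ℂ × ℂ) × ℂ → WithLp 2 (ℂ × ℂ) × ℂ),
      IsFinsler M F ∧ IsRanders M F ∧ IsHomogeneous M F ∧ IsFinsler N G ∧
      IsFinslerCovering M F N G {id, γ} π ∧
      (∀ g ∈ ({id, γ} : Set _), HasConstantDisplacement M F g) ∧
      γ ∘ γ = id ∧ (∀ p ∈ M, finslerDist M F p (γ p) = 8 * Real.pi) ∧
      ¬ IsHomogeneous N G := by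
  refine ⟨dom, dom, FM, FN, gam, cov, FM_isRanders.isFinsler isOpen_dom isConnected_dom,
    FM_isRanders, FM_homogeneous, FN_isRanders.isFinsler isOpen_dom isConnected_dom, covering,
    ?_, ?_, fun p hp => dist_gam hp, FN_not_homogeneous⟩
  · rintro g (rfl | rfl)
    · exact ⟨0, fun p hp => dist_id hp⟩
    · exact ⟨8 * Real.pi, fun p hp => dist_gam hp⟩
  · funext p; exact gam_gam p

end Pool.Agent.Results.MP_6fe59b_gt.RandersCounterexample
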